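import Pool.Agent.H50.FT.Four
import Pool.Agent.H50.FT.SemiT

/-!
# The motivic Tate conjecture and the Tate tensors in a bounded number of variables

Let `k` be a finitely generated field of characteristic zero and let `M i` be finitely many motives over
`k` (of André, or for absolute Hodge cycles), pure of weight `w i`; let `ρ i` be the action of `Γ`, the
Galois group of `k` or the fundamental group of a model `U` of `k` over which the `M i` have good
reduction, on the `ℓ`-adic realization `ℚ_ℓ ^ (n i)` of `M i`, and `𝔤` the Lie algebra of the `ℓ`-adic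
motivic Galois group of the direct sum `M` of the `M i`, which acts on the sum of the realizations. The
property `Motivic ρ 𝔤` (structure `IsMotivic`) collects the properties of `𝔤` which are used: it is a Lie
algebra, it respects the direct sum, it is reductive (trace form nondegenerate, completely reducible), it
consists of all endomorphisms which kill the tensors killed by `𝔤`, and these tensors are Tate tensors
(fixed by a subgroup of finite index of `Γ`), since they are motivated classes. The `M i` are polarized:
`Γ` acts on each realization by similitudes of a nondegenerate symmetric or alternating form.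

The motivic Tate conjecture for `M`, up to finite groups, says that the representation is semisimple and
that the Tate tensors, in any number of variables, are the tensors killed by `𝔤`: so the identity
components of the `ℓ`-adic monodromy group `G_ℓ(M)` and of the motivic Galois group are the same.
(`TateUpTo N ρ 𝔤`: this is true for the tensors in at most `N` variables, each variable being a vector of
the realization of `M` or of its dual space. So `N` is bounded, and only finitely many motives
`M^{⊗ a} ⊗ (M^∨)^{⊗ b}`, `a + b ≤ N`, are involved.)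

Let `s` be the homomorphism from the absolute Galois group of `ℚ` to `Γ` given by a rational point of
`U`. (For `k = ℚ` it is the identity. Every motive over a finitely generated field gives by restriction
of scalars a motive over some `ℚ(t_1, ..., t_d)`, all of whose models have rational points.) The
condition `FiniteOrderFrom s ℓ`, that characters of `Γ` which are of finite order along the point are of
finite order, is trivial for `k = ℚ`, and in general it is the theorem of Katz and Lang on the
fundamental groups of varieties over finitely generated fields. Finally we need three prime numbers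
`p ≠ ℓ` with a Frobenius element which acts with rational characteristic polynomials, pure of weight
`w i` (`PureAt`); for the cohomology of varieties they exist by the theorem of Deligne.

**Theorem.** (1) If all Tate tensors in at most `N` variables are killed by `𝔤`, where `N ≥ 4` and
`N ≥ n i` for all `i`, then the realization of `M` is a semisimple representation of all subgroups of
finite index of `Γ`.

(2) If it is semisimple and all Tate tensors in at most four variables are killed by `𝔤`, then every
element of `𝔤` is the sum of a central element of `𝔤` and of an element which kills all Tate tensors, in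
any number of variables: the Lie algebra of `G_ℓ(M)` contains the derived algebra of `𝔤`, and all Tate
tensors are killed by the derived algebra of `𝔤`.

(3) If the centre of `𝔤` consists of multiples of the weight operator (the multiplication by `w i` on the
realization of `M i`), then the motivic Tate conjecture for `M` and for all motives in the tensor
category generated by `M`, up to finite groups, is equivalent to the semisimplicity of the realization
of `M` together with the statement about the Tate tensors in at most four variables; and it is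
equivalent to the statement about the Tate tensors in at most `max(4, n i)` variables, without the
semisimplicity.

Moonen proved that the Tate conjecture for all varieties (over finitely generated fields of
characteristic zero) implies the semisimplicity; here the number of variables is bounded in terms of
`M` itself, and nothing is assumed about other motives.

The proof. (1) Let `W` be an isotropic stable subspace of the realization of `M i`, of dimension `e`, so
that `2 e ≤ n i`. Let `μ` be the similitude factor. The character `det(W)^2 μ^{-e}` has algebraic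
values of absolute value one at three Frobenius elements; by the `ℓ`-adic six exponentials theorem
(library `Pool.Agent.Y115`) its restriction to the Galois group of `ℚ` is of finite order, and so it is
itself of finite order. This means that the tensor in `2 e` variables which maps
`(f_1, ..., f_e, x_1, ..., x_e)` to `det(f_a(w_b)) det(B(x_a, w_b))`, for a basis `w_1, ..., w_e` of `W`,
is a Tate tensor. So it is killed by `𝔤`; it follows that `W` is stable under `𝔤`, and has a
complement which is stable under `𝔤`. The projection is an endomorphism which commutes with `𝔤`, hence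
with a subgroup of finite index of `Γ`, and so `W` has a stable complement by Maschke's argument. A
polarized representation all of whose isotropic stable subspaces have stable complements is
semisimple. (2) Let `L ≤ 𝔤` be the Lie algebra of the endomorphisms which kill all Tate tensors. The trace
form on `L` is nondegenerate; the orthogonal projection from the endomorphisms of the realization to
`L` commutes with `Γ`, and is a Tate tensor in four variables. So it commutes with `𝔤`, and `L` is an
ideal of `𝔤`. The elements of `𝔤` which are orthogonal to `L` commute with `L`, hence with a subgroup of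
finite index of `Γ`: they are Tate tensors in two variables, and commute with `𝔤`. (3) The weight
operator kills all Tate tensors because of the purity of one Frobenius element.
-/

set_option autoImplicit false

namespace Pool.Agent.Results.MP_bbcdf5_ag.BoundedVariables

open Module NumberField Polynomial Pool.Agent.Y114.TF Pool.Agent.Y114.RM Pool.Agent.H204R3.GP
  Pool.Agent.R913.Adj

section props

variable (Γ : Type) [Group Γ] {ι : Type} (n : ι → ℕ) (ℓ : ℕ) [Fact ℓ.Prime]

/-- Representations of `Γ` on the spaces `ℚ_ℓ ^ (n i)`. -/
abbrev Reps : Type := ∀ i, Representation ℚ_[ℓ] Γ (Fin (n i) → ℚ_[ℓ])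

/-- Spaces of endomorphisms of the direct sum of the spaces `ℚ_ℓ ^ (n i)`. -/
abbrev EndSpace : Type := Submodule ℚ_[ℓ] (End ℚ_[ℓ] (∀ i, Fin (n i) → ℚ_[ℓ]))

variable {Γ n ℓ} (ρ : Reps Γ n ℓ) (𝔤 : EndSpace n ℓ)

/-- The representations are continuous. -/
def Conts [TopologicalSpace Γ] : Prop := ∀ i, Continuous fun g => LinearMap.toMatrix' (ρ i g)

/-- Every `ρ i` acts by similitudes of a nondegenerate reflexive (symmetric or alternating) form. -/
def Polarized : Prop :=
  ∀ i, ∃ B : LinearMap.BilinForm ℚ_[ℓ] (Fin (n i) → ℚ_[ℓ]), B.Nondegenerate ∧ B.IsRefl ∧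
    ∀ γ, ∃ c, ∀ x y, B (ρ i γ x) (ρ i γ y) = c * B x y

/-- `σ` is an (arithmetic) Frobenius element at the prime number `p`: there is a prime ideal `Q`
above `p` of the ring of all algebraic integers with `σ x ≡ x ^ p` modulo `Q` for all `x`. -/
def IsFrobeniusAt (p : ℕ) (σ : Gal(AlgebraicClosure ℚ/ℚ)) : Prop :=
  ∃ Q : Ideal (𝓞 (AlgebraicClosure ℚ)), Q.IsPrime ∧ (p : 𝓞 (AlgebraicClosure ℚ)) ∈ Q ∧
    ∀ x : 𝓞 (AlgebraicClosure ℚ), σ • x - x ^ p ∈ Q

/-- Some geometric Frobenius element `σ⁻¹` at `p` acts on the fibres of the `M i` at the point with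
rational characteristic polynomials, pure of weight `w i`. -/
def PureAt (s : Gal(AlgebraicClosure ℚ/ℚ) →* Γ) (w : ι → ℤ) (p : ℕ) : Prop :=
  ∃ σ, IsFrobeniusAt p σ ∧ ∀ i, ∃ P : ℚ[X],
    (ρ i (s σ⁻¹)).charpoly = P.map (algebraMap ℚ ℚ_[ℓ]) ∧
      ∀ a ∈ P.aroots ℂ, ‖a‖ ^ 2 = (p : ℝ) ^ w i

variable [Fintype ι] [DecidableEq ι]

/-- `𝔤` has the properties of the Lie algebra of the motivic Galois group (see `IsMotivic`). -/
def Motivic : Prop := IsMotivic ρ 𝔤

/-- The direct sum is semisimple as a representation of every subgroup of finite index. -/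
def Semisimple : Prop := FiniteIndexSemisimple (sumRep ρ)

/-- The Tate tensors in at most `N` variables are killed by `𝔤`. -/
def TateUpTo (N : ℕ) : Prop :=
  ∀ m ≤ N, ∀ φ : Tensor ℚ_[ℓ] (∀ i, Fin (n i) → ℚ_[ℓ]) m, TateTensor (sumRep ρ) φ →
    ∀ X ∈ 𝔤, KillsTensor X φ

/-- `X` kills all Tate tensors, in any number of variables: it is an element of the Lie algebra of the
`ℓ`-adic monodromy group, if the representation is semisimple. -/
def KillsAllTate (X : End ℚ_[ℓ] (∀ i, Fin (n i) → ℚ_[ℓ])) : Prop :=
  ∀ (m : ℕ) (φ : Tensor ℚ_[ℓ] (∀ i, Fin (n i) → ℚ_[ℓ]) m), TateTensor (sumRep ρ) φ →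
    KillsTensor X φ

/-- `Z` is in the centre of `𝔤`. -/
def Central (Z : End ℚ_[ℓ] (∀ i, Fin (n i) → ℚ_[ℓ])) : Prop :=
  Z ∈ 𝔤 ∧ ∀ Y ∈ 𝔤, Y * Z = Z * Y

/-- The conjecture for the direct sum, up to finite groups: it is semisimple, and the Tate tensors are
the tensors killed by `𝔤`. -/
def AllTate : Prop :=
  Semisimple ρ ∧ ∀ (m : ℕ) (φ : Tensor ℚ_[ℓ] (∀ i, Fin (n i) → ℚ_[ℓ]) m),
    TateTensor (sumRep ρ) φ ↔ ∀ X ∈ 𝔤, KillsTensor X φ

end props

/-- Every continuous character of `Γ` (with values in `ℚ_ℓ`) whose restriction by `s` is of finite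
order is of finite order. -/
def FiniteOrderFrom {Γ : Type} [Group Γ] [TopologicalSpace Γ] {G : Type} [Group G] (s : G →* Γ)
    (ℓ : ℕ) [Fact ℓ.Prime] : Prop :=
  ∀ ψ : Γ →* ℚ_[ℓ]ˣ, Continuous ψ → (∃ m : ℕ, 0 < m ∧ ∀ g, ψ (s g) ^ m = 1) →
    ∃ m : ℕ, 0 < m ∧ ∀ γ, ψ γ ^ m = 1

/-- The centre of `𝔤` consists of multiples of the weight operator (the multiplication by `w i` on the
`i`-th summand). -/
def CentreOfWeights {ι : Type} [Fintype ι] [DecidableEq ι] {n : ι → ℕ} {ℓ : ℕ} [Fact ℓ.Prime]
    (𝔤 : EndSpace n ℓ) (w : ι → ℤ) : Prop :=
  ∀ Z, Central 𝔤 Z → ∃ c : ℚ_[ℓ], Z = c • weightOp (fun i => Fin (n i) → ℚ_[ℓ]) w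

/-- **Theorem.** Let `4 ≤ N`. (1) If `n i ≤ N` for all `i` and the Tate tensors in at most `N` variables
are killed by `𝔤`, the realization is semisimple. (2) If it is semisimple and the Tate tensors in at
most four variables are killed by `𝔤`, then every element of `𝔤` is the sum of a central element and
of an element which kills all Tate tensors. (3) If the centre of `𝔤` consists of multiples of the
weight operator, the conjecture for the direct sum and all its tensor constructions is equivalent to
the semisimplicity together with the statement for four variables, and, if `n i ≤ N` for all `i`, to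
the statement for `N` variables. -/
theorem result {Γ : Type} [Group Γ] [TopologicalSpace Γ] [IsTopologicalGroup Γ] [CompactSpace Γ]
    {ι : Type} [Fintype ι] [DecidableEq ι] {n : ι → ℕ} {ℓ : ℕ} [Fact ℓ.Prime]
    -- the polarized `ℓ`-adic realizations of the `M i`, and the Lie algebra of the motivic group
    (ρ : Reps Γ n ℓ) (hρ : Conts ρ) (hpol : Polarized ρ) (𝔤 : EndSpace n ℓ) (h𝔤 : Motivic ρ 𝔤)
    -- the rational point
    (s : Gal(AlgebraicClosure ℚ/ℚ) →* Γ) (hs : Continuous s) (hfin : FiniteOrderFrom s ℓ)
    -- three primes with a pure Frobenius element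
    (w : ι → ℤ) (p : Fin 3 → ℕ) (hinj : Function.Injective p)
    (hp : ∀ t, (p t).Prime ∧ p t ≠ ℓ ∧ PureAt ρ s w (p t))
    (N : ℕ) (hN : 4 ≤ N) :
    ((∀ i, n i ≤ N) → TateUpTo ρ 𝔤 N → Semisimple ρ) ∧
    (Semisimple ρ → TateUpTo ρ 𝔤 4 → ∀ X ∈ 𝔤, ∃ Z, Central 𝔤 Z ∧ KillsAllTate ρ (X - Z)) ∧
    (CentreOfWeights 𝔤 w →
      (AllTate ρ 𝔤 ↔ Semisimple ρ ∧ TateUpTo ρ 𝔤 4) ∧
      ((∀ i, n i ≤ N) → (AllTate ρ 𝔤 ↔ TateUpTo ρ 𝔤 N))) := by
  have key1 : (∀ i, n i ≤ N) → TateUpTo ρ 𝔤 N → Semisimple ρ := by
    intro hn hT
    refine Pool.Agent.H50.FT.semisimple_of_tensors ρ hρ h𝔤 hpol s hs hfin w p hinj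
      (fun t => ⟨(hp t).1, (hp t).2.1⟩) (fun i t => ?_) hn hT
    obtain ⟨σ, hσ, h1⟩ := (hp t).2.2
    exact ⟨σ, hσ, h1 i⟩
  have key2 : CentreOfWeights 𝔤 w → Semisimple ρ → TateUpTo ρ 𝔤 4 → AllTate ρ 𝔤 := by
    intro hcen hss hT
    obtain ⟨σ, -, h1⟩ := (hp 0).2.2
    choose P hP using h1
    have hγ : ActsPurely ρ w (s σ⁻¹) := ⟨p 0, P, by exact_mod_cast (hp 0).1.one_lt, hP⟩
    exact ⟨hss, fun m φ => ⟨fun hφ X hX => Pool.Agent.H50.FT.tate_of_four ρ hρ h𝔤 hss hT hγ
      (fun Z hZ hZc => hcen Z ⟨hZ, hZc⟩) m φ hφ hX, fun h => IsMotivic.tate h𝔤 m φ h⟩⟩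
  have key3 : ∀ M, AllTate ρ 𝔤 → TateUpTo ρ 𝔤 M := fun M h m _ φ hφ X hX => (h.2 m φ).1 hφ X hX
  refine ⟨key1, fun hss hT X hX => ?_, fun hcen => ⟨⟨fun h => ⟨h.1, key3 4 h⟩, fun h =>
    key2 hcen h.1 h.2⟩, fun hn => ⟨key3 N, fun h => key2 hcen (key1 hn h) fun m hm =>
    h m (hm.trans hN)⟩⟩⟩
  obtain ⟨Z, hZ, hZc, h1⟩ := Pool.Agent.H50.FT.ideal_of_four ρ hρ h𝔤 hss hT hX
  exact ⟨Z, ⟨hZ, hZc⟩, h1⟩

end Pool.Agent.Results.MP_bbcdf5_ag.BoundedVariables
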