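import Pool.Agent.W5h93.EX.Mg

/-!
# The motivic Tate conjecture and the cubic hypersurfaces `T(x, y, z) = 1`

Let `k` be a finitely generated field of characteristic zero, `𝒢_k` the motivic Galois group and `Γ_k`
the Galois group of `k`. The conjecture for all motives over `k` says that the image of `Γ_k` in
`𝒢_k(ℚ_ℓ)` is Zariski dense. By the theorem of Chevalley (a subgroup is the stabilizer of a line) and
since `𝒢_k` is reductive this is equivalent to the statement for all smooth projective varieties `X`:
the irreducible constituents of `H^i(X)` as a representation of `𝒢_k` remain irreducible for `Γ_k`, and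
the Tate classes on `X` are spanned by motivated (or absolute Hodge) classes.

Let `δ(X)` be the Laurent polynomial whose coefficient at `c ≥ 0` is the pair of the difference of the
lengths of `H^(2c)(X) ⊕ H^(2c+1)(X)` for `Γ_k` and for `𝒢_k`, and of the difference of the dimensions of
the space of Tate classes in `H^(2c)(X)(c)` and of the span of the motivated classes. Both are `≥ 0`, and
the statement for `X` is equivalent to `δ(X) = 0`. The invariant `δ` is compatible with blow-ups; so it
extends, by the theorem of Bittner, to an additive invariant of all separated schemes of finite type.

The statement for all varieties of dimension at most `n` is equivalent to `δ = 0` for the smooth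
affine cubic hypersurfaces `T(x, y, z) = 1`, of arbitrary dimension, where `T` is a trilinear form over
`k` one of whose blocks of variables has at most `n + 2` variables. For `k = ℚ` in all dimensions the
hypersurfaces `∑_{(i, j, l) ∈ H} x_i y_j z_l = 1` of the tripartite hypergraphs `H` are enough.
-/

set_option autoImplicit false

open CategoryTheory AlgebraicGeometry Pool.Agent.Y116.UV Pool.Agent.W5h93.EV Pool.Agent.W5h93.EX

universe u v

namespace Pool.Agent.Results.MP_bbcdf5_ag.IrreducibleConstituents

/-- **The motivic Tate conjecture and trilinear forms.** -/
theorem result (k : Type) [Field k] [CharZero k] (K : Type u) [Field K] (R S : Type u) [Ring R]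
    [Ring S] (D : MotivicData.{u, v} k K R S) (Q : Sch k → Prop) (hQ : IsClass Q)
    (hD : D.IsMotivic Q) (δ : Sch k → ℤ → ℤ × ℤ) (hδ : D.IsDefect Q δ) :
    Reduces Q D.Holds (Vanish δ) :=
  reduces (bnd_additive hδ.additive) hQ fun _ hX => motivic_iff hD hδ hX

end Pool.Agent.Results.MP_bbcdf5_ag.IrreducibleConstituents
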