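import Pool.Agent.W5h89.MTQ.Conv

/-!
# Zero-one laws for the motivic Tate conjecture, and semisimplicity over the rational numbers

Let `T` be a Hodge theory on a class of smooth projective varieties over a field `k` (in the intended
use `k` is a finitely generated subfield of the complex numbers and `T` is `X ↦ H(X(ℂ), ℚ)`), let `M`
be a property of classes (the motivated classes, or the absolutely Hodge classes) and let the group
`Γ` (the Galois group of `k`) act on the cohomology with coefficients in `L` (which is `ℚ_ℓ`, and
`L ⊗ H(X(ℂ), ℚ)` is the `ℓ`-adic cohomology) such that the classes with the property `M` are Tate
classes.

A Hodge class is called motivic if it is a Tate class for all actions of groups by automorphisms of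
the cohomology theory (with any coefficients which can be embedded into the complex numbers) for
which the classes with the property `M` are Tate classes. These are the rational classes which are
fixed by the identity component of the motivic Galois group.

For every variety `X` in the class the following two statements are true.

1. Either all Tate classes on all powers of `X` are linear combinations of motivic classes with
   coefficients in `L` (the identity components of the monodromy group and of the motivic Galois
   group have the same invariants in the cohomology of all powers of `X`), or the proportion of the
   motivic classes among the Tate classes of `X ^ n` tends to zero as `n` tends to infinity.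
   If `k` is the field of rational numbers, then in the first case the cohomology of all powers of `X`
   is semisimple, so that the identity component of the monodromy group of the motive of `X` is equal
   to the identity component of its motivic Galois group: the motivic Tate conjecture for the motive
   of `X`, up to the groups of components.
2. Either all Hodge classes on all powers of `X` are motivic, or the proportion of the motivic
   classes among the Hodge classes of `X ^ n` tends to zero as `n` tends to infinity.

It is not assumed that the action of `Γ` is semisimple.
-/

open CategoryTheory AlgebraicGeometry

universe u v

namespace Pool.Agent.Results.MP_bbcdf5_ag.MotivicTateOverQ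

open Pool.Agent.H914 Pool.Agent.Y121.AHS Pool.Agent.W5h89.MTQ
open Pool.Agent.W5h89.MTZ (GaloisAction AreTate IsMotivic motDim law_hodge_mot)
open Pool.Agent.Y133.Half (pw)

variable {k : Type u} [Field k] {𝒱 : VarClass k} {ops : CycleOps 𝒱}

/-- The two laws: `pw X n` is the product of `n + 1` copies of `X`. -/
theorem result (T : HodgeTheory ops) (M : ∀ X : 𝒱.Obj, ℕ → T.W.H X → Prop) (L : Type) [Field L]
    [Algebra T.W.K L] (hL : Nonempty (L →+* ℂ)) (Γ : Type v) [Group Γ] (A : GaloisAction T L Γ)
    (hA : AreTate M A) (X : 𝒱.Obj) :
    (((∀ n j, TateIsMotivic M A (pw X n) j) ∧
        (IsOverQ A → ∀ n i, Semisimple (on A (pw X n)) (grL T.W L (pw X n) i))) ∨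
      RatioToZero (fun n => motDim.{u, v} M (pw X n)) fun n => tateDim A (pw X n)) ∧
    ((∀ n j c, IsHodge T (pw X n) j c → IsMotivic.{u, v} M (pw X n) j c) ∨
      RatioToZero (fun n => motDim.{u, v} M (pw X n)) fun n => hodgeDim T (pw X n)) :=
  ⟨law_mot M hL A hA X, law_hodge_mot M X⟩

end Pool.Agent.Results.MP_bbcdf5_ag.MotivicTateOverQ
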