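import Pool.Agent.H50.FT.OneP

/-!
# The motivic Tate conjecture: from four variables at one prime number to every prime number

Let `k` be a finitely generated field of characteristic zero and let `M i` be finitely many motives over
`k` (of André, or for absolute Hodge cycles), pure of weight `w i`. Let `Γ` be the Galois group of `k`, or
the fundamental group of a model `U` of `k` over which the `M i` have good reduction; for every prime
number `ℓ` let `ρ ℓ` be the action of `Γ` on the `ℓ`-adic realizations `ℚ_ℓ ^ (n i)` of the `M i`, and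
`𝔤 ℓ` the Lie algebra of the `ℓ`-adic motivic Galois group of the direct sum `M` of the `M i`, which acts
on the sum of the realizations; it is `𝔤 ⊗ ℚ_ℓ` for a Lie algebra `𝔤` over `ℚ`, of rank `r`. The property
`Motivic` (structure `IsMotivic` of the starting files) collects the properties of `𝔤 ℓ` which are used:
it is a Lie algebra, it respects the direct sum, it is reductive (trace form nondegenerate, completely
reducible), it consists of all endomorphisms which kill the tensors killed by `𝔤 ℓ`, and these tensors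
are Tate tensors (fixed by a subgroup of finite index of `Γ`), since they are motivated classes. The
`M i` are polarized: `Γ` acts on each realization by similitudes of a nondegenerate symmetric or
alternating form.

The motivic Tate conjecture for `M` at `ℓ`, up to finite groups (`AllTate`), says that the realization is
semisimple and that the Tate tensors, in any number of variables, are the tensors killed by `𝔤 ℓ`; so the
identity components of the `ℓ`-adic monodromy group `G_ℓ(M)` and of the motivic Galois group are the same.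
`TateUpTo N`: the Tate tensors in at most `N` variables are killed by `𝔤 ℓ`, each variable being a vector
of the realization of `M` or of its dual space. `OpenImage`: all elements of `𝔤 ℓ` are in the Lie algebra
of the image of `Γ` (limits of `(ρ (σ m) - 1) / ℓ ^ m`), so the image is open in the group of
`ℚ_ℓ`-rational points of the motivic Galois group. `EndomorphismsFixed`: all endomorphisms of the
realization of `M` which commute with a subgroup of finite index of `Γ` commute with `𝔤 ℓ`.

Let `s` be the homomorphism from the absolute Galois group of `ℚ` to `Γ` given by a rational point of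
`U`. (For `k = ℚ` it is the identity. Every motive over a finitely generated field gives by restriction
of scalars a motive over some `ℚ(t_1, ..., t_d)`, all of whose models have rational points.) Outside of a
finite set `S` of places `v` the fibres of the `M i` at the point have good reduction, with Frobenius
polynomials `P v i` which are rational, independent of `ℓ` and pure of weight `w i`; and `(q v) ^ c` times
a Frobenius eigenvalue is an algebraic integer. For the cohomology of varieties this is the theorem of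
Deligne. The condition `FiniteOrderFrom s ℓ`, that characters of `Γ` which are of finite order along the
point are of finite order, is trivial for `k = ℚ`, and in general it is the theorem of Katz and Lang.

`AbelianPart` is a condition on the abelian part of the motive: the centre of `𝔤 ℓ` consists of multiples
of the weight operator (the multiplication by `w i` on the realization of `M i`), OR the conjecture is
true for the abelian part of `M`, in the form that `𝔤 ℓ` is the sum of its derived algebra and of the Lie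
algebra of the image of `Γ`. For motives for absolute Hodge cycles the second alternative is always true:
the quotient of `𝔤 ℓ` by the derived algebra belongs to a motive of CM type, for which the conjecture
is known (Deligne, Serre).

**Theorem.** Suppose that at ONE prime number `ℓ₀` one of the following three conditions holds for the
fibre of `M` at the point (with the Lie algebra `𝔤 ℓ₀`): the image is open; or `AbelianPart` holds, the
realization is semisimple and all Tate tensors in at most four variables are killed by `𝔤 ℓ₀`; or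
`AbelianPart` holds and all Tate tensors in at most `N` variables are killed by `𝔤 ℓ₀`, for one number
`N ≥ 4` with `N ≥ n i` for all `i`. Then the image at `ℓ₀` is open, and for EVERY prime number `ℓ`:
* the realization of `M` at `ℓ` is a semisimple representation of all subgroups of finite index of `Γ`;
* the motivic Tate conjecture for `M` at `ℓ`, up to finite groups, is equivalent to the statement about
  endomorphisms alone (`EndomorphismsFixed`);
* if `AbelianPart` holds at `ℓ`, it is equivalent to the open image of `Γ` at `ℓ`.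

Only the ranks of the `𝔤 ℓ` are compared: `RankLE (𝔤 ℓ) r` for all `ℓ` and `RankGE (𝔤 ℓ₀) r`, where the
rank is the minimal dimension of the centralizers of elements. So for `k = ℚ` the conjecture (up to finite
groups) for `M` and for all motives in the tensor category generated by `M`, at all prime numbers, is
equivalent to the statement about finitely many motives at one prime number, together with the
statement about endomorphisms at all prime numbers.

`BoundedVariables` in this folder is about one prime number: the conjecture there follows from a bounded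
number of variables if the centre of `𝔤 ℓ` consists of multiples of the weight operator. The starting
files contain the first two conclusions if at `ℓ₀` some element of the image of the Galois group has
`r` multiplicatively independent eigenvalues (`Pool.Agent.R931.IR`, `Pool.Agent.R931.BD`). For abelian
varieties Larsen and Pink proved that the Mumford-Tate conjecture at one prime number implies it at
all prime numbers; there the semisimplicity and the endomorphisms are known by Faltings.

The proof. First we show that `𝔤` is the Lie algebra `T` of the image at `ℓ₀`. By the methods of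
`BoundedVariables` all Tate tensors are killed by `𝔤`. Let `t_1, ..., t_d` be a basis of `T`. The
determinant of the adjoint representation on `T` is a character with algebraic values of absolute value
one at three Frobenius elements; by the `ℓ`-adic six exponentials theorem (library `Pool.Agent.Y115`) it
is of finite order. So the tensor `det(f_a(t_b(x_a)))` in `2 d` variables is a Tate tensor, and is killed
by `𝔤`; it follows that `T` is an ideal of `𝔤`. An element `C` of `𝔤` which is orthogonal to `T` for the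
trace form commutes with `T`, hence (logarithms) with an open subgroup of `Γ`, hence with `𝔤`. If
`𝔤 = T + [𝔤, 𝔤]` then `C` is orthogonal to `𝔤`, and `C = 0`. If the centre consists of multiples of the
weight operator `W`, and `C ≠ 0`, then `W` is orthogonal to `T`, and the traces of the elements of `T` on
the realizations of the `M i` vanish; so the determinants of the `ρ i` are `1` on an open subgroup, in
contradiction to the purity of a Frobenius element. Next, a Cartan subalgebra of `𝔤 ℓ₀` contains an
element with `r` eigenvalues which are linearly independent over `ℤ`, and this element is tangent to the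
image of the Galois group of `ℚ`. By the continuity of roots there are elements `σ` of the Galois group
near to `1` such that `r` eigenvalues of `σ` satisfy none of finitely many given multiplicative relations,
and by Chebotarev's theorem there are such Frobenius elements. As the eigenvalues of Frobenius elements
are Weil numbers of bounded weights, a Frobenius element which satisfies none of finitely many suitable
relations has `r` multiplicatively independent eigenvalues, and the theorems of the starting files about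
such places can be applied at every prime number `ℓ`.
-/

set_option autoImplicit false

namespace Pool.Agent.Results.MP_bbcdf5_ag.OneToEveryPrime

open NumberField IsDedekindDomain Module Polynomial Topology Filter Pool.Agent.Y114.TF
  Pool.Agent.Y114.RM Pool.Agent.Y114.MU Pool.Agent.Y114.GF Pool.Agent.H204R3.GP
  Pool.Agent.R913.Adj Pool.Agent.R931.IR

section general

variable {k : Type} [Field k] {V : Type} [AddCommGroup V] [Module k V] {Γ : Type} [Group Γ]

/-- `Γ` acts by similitudes of a nondegenerate reflexive (symmetric or alternating) form. -/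
def ActsBySimilitudes (R : Representation k Γ V) : Prop :=
  ∃ B : LinearMap.BilinForm k V, B.Nondegenerate ∧ B.IsRefl ∧
    ∀ γ, ∃ c : k, ∀ x y, B (R γ x) (R γ y) = c * B x y

/-- The derived algebra of `𝔤`: it is spanned by the commutators. -/
def derived (𝔤 : Submodule k (End k V)) : Submodule k (End k V) :=
  Submodule.span k {Z | ∃ A ∈ 𝔤, ∃ B ∈ 𝔤, A * B - B * A = Z}

/-- The centre of `𝔤` consists of multiples of `W`. -/
def CentreConsistsOfMultiples (𝔤 : Submodule k (End k V)) (W : End k V) : Prop :=
  ∀ Z ∈ 𝔤, (∀ Y ∈ 𝔤, Y * Z = Z * Y) → ∃ c : k, Z = c • W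

/-- The Tate tensors in at most `N` variables are killed by `𝔤`. -/
def KillsTateUpTo (R : Representation k Γ V) (𝔤 : Submodule k (End k V)) (N : ℕ) : Prop :=
  ∀ m ≤ N, ∀ φ : Tensor k V m, TateTensor R φ → ∀ X ∈ 𝔤, KillsTensor X φ

/-- Every endomorphism which commutes with a subgroup of finite index of `Γ` commutes with `𝔤`. -/
def FixesEndomorphisms (R : Representation k Γ V) (𝔤 : Submodule k (End k V)) : Prop :=
  ∀ Y : End k V, (∃ Δ : Subgroup Γ, Δ.FiniteIndex ∧ ∀ γ ∈ Δ, R γ * Y = Y * R γ) →
    ∀ X ∈ 𝔤, X * Y = Y * X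

end general

section sums

variable {k : Type} [Field k] {ι : Type} [DecidableEq ι] {V : ι → Type}
  [∀ i, AddCommGroup (V i)] [∀ i, Module k (V i)] {Γ : Type} [Group Γ]

/-- The action of `X` on the `i`-th summand. -/
def block (X : End k (∀ i, V i)) (i : ι) : End k (V i) :=
  LinearMap.proj i ∘ₗ X ∘ₗ LinearMap.single k V i

/-- There are elements `σ 0, σ 1, ...` of `Γ` such that for all `i` the sequence of their actions on
the `i`-th summand and the action of `X` are in the relation `L i`. -/
def IsTangentFor (L : ∀ i, (ℕ → End k (V i)) → End k (V i) → Prop)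
    (ρ : ∀ i, Representation k Γ (V i)) (X : End k (∀ i, V i)) : Prop :=
  ∃ σ : ℕ → Γ, ∀ i, L i (fun m => ρ i (σ m)) (block X i)

/-- All elements of `𝔤` are tangent vectors (see `IsTangentFor`). -/
def AllTangentFor (L : ∀ i, (ℕ → End k (V i)) → End k (V i) → Prop)
    (ρ : ∀ i, Representation k Γ (V i)) (𝔤 : Submodule k (End k (∀ i, V i))) : Prop :=
  ∀ X ∈ 𝔤, IsTangentFor L ρ X

/-- All elements of `𝔤` are sums of elements of the derived algebra and of tangent vectors (see
`IsTangentFor`). -/
def AbelianPartTangentFor (L : ∀ i, (ℕ → End k (V i)) → End k (V i) → Prop)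
    (ρ : ∀ i, Representation k Γ (V i)) (𝔤 : Submodule k (End k (∀ i, V i))) : Prop :=
  ∀ X ∈ 𝔤, ∃ Y ∈ derived 𝔤, IsTangentFor L ρ (X - Y)

end sums

/-- `X` is the limit of the `(g m - 1) / ℓ ^ m` (as a matrix). -/
def IsLimitOfQuotients {ℓ : ℕ} [Fact ℓ.Prime] {d : ℕ} (g : ℕ → End ℚ_[ℓ] (Fin d → ℚ_[ℓ]))
    (X : End ℚ_[ℓ] (Fin d → ℚ_[ℓ])) : Prop :=
  Tendsto (fun m : ℕ => ((ℓ : ℚ_[ℓ]) ^ m)⁻¹ • (LinearMap.toMatrix' (g m) - 1)) atTop
    (𝓝 (LinearMap.toMatrix' X))

section props

variable {Γ : Type} [Group Γ] {ι : Type} {n : ι → ℕ} {ℓ : ℕ} [Fact ℓ.Prime]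
  (ρ : Reps Γ n ℓ) (𝔤 : EndSpace n ℓ)

/-- Every `ρ i` acts by similitudes of a nondegenerate reflexive (symmetric or alternating) form. -/
def Polarized : Prop := ∀ i, ActsBySimilitudes (ρ i)

/-- The open image: all elements `X` of `𝔤` are in the Lie algebra of the image of `Γ`, that is, `X` is
on all summands the limit of the `(ρ (σ m) - 1) / ℓ ^ m`, for elements `σ m` of `Γ`. -/
def OpenImage [DecidableEq ι] : Prop :=
  AllTangentFor (V := fun i => Fin (n i) → ℚ_[ℓ]) (fun _ => IsLimitOfQuotients) ρ 𝔤

/-- The centre of `𝔤` consists of multiples of the weight operator (the multiplication by `w i` on the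
`i`-th summand). -/
def CentreOfWeights [Fintype ι] [DecidableEq ι] (w : ι → ℤ) : Prop :=
  CentreConsistsOfMultiples 𝔤 (weightOp (k := ℚ_[ℓ]) (fun i => Fin (n i) → ℚ_[ℓ]) w)

/-- Every element of `𝔤` is the sum of an element of the derived algebra and of an element of the Lie
algebra of the image of `Γ`. -/
def AbelianPartInImage [DecidableEq ι] : Prop :=
  AbelianPartTangentFor (V := fun i => Fin (n i) → ℚ_[ℓ]) (fun _ => IsLimitOfQuotients) ρ 𝔤

/-- The centre of `𝔤` consists of multiples of the weight operator, or the abelian part of `𝔤` comes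
from the image of `Γ` (see `CentreOfWeights` and `AbelianPartInImage`). -/
def AbelianPart [Fintype ι] [DecidableEq ι] (w : ι → ℤ) : Prop :=
  CentreOfWeights 𝔤 w ∨ AbelianPartInImage ρ 𝔤

/-- The Tate tensors in at most `N` variables are killed by `𝔤`. -/
def TateUpTo (N : ℕ) : Prop := KillsTateUpTo (sumRep ρ) 𝔤 N

/-- The statement about endomorphisms (see `FixesEndomorphisms`). -/
def EndomorphismsFixed : Prop := FixesEndomorphisms (sumRep ρ) 𝔤

/-- The conjecture for the direct sum, up to finite groups: it is semisimple, and the Tate tensors are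
the tensors killed by `𝔤`. -/
def AllTate : Prop := Semisimple ρ ∧ TateTensorsOf ρ 𝔤

/-- The rank of `𝔤` is at least `r`: the centralizers in `𝔤` of all elements of `𝔤` have at least the
dimension `r`. -/
def RankGE (r : ℕ) : Prop := RankAtLeast 𝔤 r

end props

/-- Every continuous character of `Γ` (with values in `ℚ_ℓ`) whose restriction by `s` is of finite
order is of finite order. -/
def FiniteOrderFrom {Γ : Type} [Group Γ] [TopologicalSpace Γ] {G : Type} [Group G] (s : G →* Γ)
    (ℓ : ℕ) [Fact ℓ.Prime] : Prop :=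
  ∀ ψ : Γ →* ℚ_[ℓ]ˣ, Continuous ψ → (∃ m : ℕ, 0 < m ∧ ∀ g, ψ (s g) ^ m = 1) →
    ∃ m : ℕ, 0 < m ∧ ∀ γ, ψ γ ^ m = 1

section system

variable {Γ : Type} [Group Γ] {ι : Type} {n : ι → ℕ}

/-- One of the three conditions at one prime number: the open image; or the condition on the abelian
part together with the semisimplicity and the Tate tensors in at most four variables, or with the Tate
tensors in at most `N` variables, for one `N ≥ 4` with `N ≥ n i` for all `i`. -/
def BoundedTate [Fintype ι] [DecidableEq ι] {ℓ : ℕ} [Fact ℓ.Prime] (ρ : Reps Γ n ℓ)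
    (𝔤 : EndSpace n ℓ) (w : ι → ℤ) : Prop :=
  OpenImage ρ 𝔤 ∨ (AbelianPart ρ 𝔤 w ∧
    ((Semisimple ρ ∧ TateUpTo ρ 𝔤 4) ∨ ∃ N, 4 ≤ N ∧ (∀ i, n i ≤ N) ∧ TateUpTo ρ 𝔤 N))

/-- The fibres at the point have good reduction outside of the finite set `S` of places `v`, with
Frobenius polynomials `P v i` independent of `ℓ` and pure of weight `w i` (see `GoodReduction`), and
`(q v) ^ c` times a Frobenius eigenvalue is an algebraic integer. -/
def GoodOutside (s : Gal(AlgebraicClosure ℚ/ℚ) →* Γ) (ρ : ∀ (ℓ : ℕ) [Fact ℓ.Prime], Reps Γ n ℓ)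
    (w : ι → ℤ) (c : ℕ) (S : Set (HeightOneSpectrum (𝓞 ℚ)))
    (P : HeightOneSpectrum (𝓞 ℚ) → ι → ℚ[X]) : Prop :=
  S.Finite ∧ (∀ v ∉ S, ∀ i, IntegralRoots c v (P v i)) ∧
    ∀ (ℓ : ℕ) [Fact ℓ.Prime], ∀ v ∉ S, ¬ Above v ℓ → ∀ i,
      GoodReduction (restrictTo (ρ ℓ) s) i (w i) v (P v i)

end system

section core

variable {Γ : Type} [Group Γ] [TopologicalSpace Γ] [IsTopologicalGroup Γ] [CompactSpace Γ]
  {ι : Type} [Fintype ι] [DecidableEq ι] {n : ι → ℕ} {ℓ : ℕ} [Fact ℓ.Prime]

/-- The equivalence of the statements at one prime number. -/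
theorem equivalence (s : Gal(AlgebraicClosure ℚ/ℚ) →* Γ) (hs : Continuous s)
    (ρ : Reps Γ n ℓ) (hρ : Conts ρ) (hpol : Polarized ρ) (𝔤 : EndSpace n ℓ) (h𝔤 : Motivic ρ 𝔤)
    (w : ι → ℤ) (S : Set (HeightOneSpectrum (𝓞 ℚ))) (hS : S.Finite)
    (P : HeightOneSpectrum (𝓞 ℚ) → ι → ℚ[X])
    (hP : ∀ v ∉ S, ¬ Above v ℓ → ∀ i, GoodReduction (restrictTo ρ s) i (w i) v (P v i))
    (hfin : FiniteOrderFrom s ℓ) (hab : AbelianPart ρ 𝔤 w) :
    (AllTate ρ 𝔤 ↔ Semisimple ρ ∧ TateUpTo ρ 𝔤 4) ∧
      (∀ N, 4 ≤ N → (∀ i, n i ≤ N) → (AllTate ρ 𝔤 ↔ TateUpTo ρ 𝔤 N)) ∧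
      (AllTate ρ 𝔤 ↔ OpenImage ρ 𝔤) := by
  obtain ⟨p, hinj, hp, hgood⟩ := Pool.Agent.H50.FT.three_primes (restrictTo ρ s) w S hS P hP
  have hab' : Pool.Agent.H50.FT.AbPart ρ w 𝔤 := hab
  have hact : ∃ γ : Γ, ActsPurely ρ w γ := by
    obtain ⟨σ, -, h1⟩ := hgood 0
    choose Q hQ using h1
    exact ⟨s σ⁻¹, p 0, Q, by exact_mod_cast (hp 0).1.one_lt, hQ⟩
  obtain ⟨γ, hγ⟩ := hact
  have key1 : ∀ N, (∀ i, n i ≤ N) → TateUpTo ρ 𝔤 N → Semisimple ρ := fun N hn hT =>
    Pool.Agent.H50.FT.semisimple_of_tensors ρ hρ h𝔤 hpol s hs hfin w p hinj hp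
      (fun i t => by
        obtain ⟨σ, hσ, h1⟩ := hgood t
        exact ⟨σ, hσ, h1 i⟩) hn hT
  have key2 : Semisimple ρ → TateUpTo ρ 𝔤 4 → AllTate ρ 𝔤 := by
    intro hss hT
    refine ⟨hss, fun m φ => ⟨fun hφ X hX => ?_, IsMotivic.tate h𝔤 m φ⟩⟩
    exact Pool.Agent.H50.FT.tate_four ρ hρ h𝔤 hss hT hγ hab' m φ hφ X hX
  have key3 : ∀ N, AllTate ρ 𝔤 → TateUpTo ρ 𝔤 N := fun N h m _ φ hφ X hX => (h.2 m φ).1 hφ X hX
  have key4 : ∀ N, 4 ≤ N → (∀ i, n i ≤ N) → TateUpTo ρ 𝔤 N → AllTate ρ 𝔤 := fun N hN hn hT =>
    key2 (key1 N hn hT) fun m hm => hT m (hm.trans hN)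
  refine ⟨⟨fun h => ⟨h.1, key3 4 h⟩, fun h => key2 h.1 h.2⟩, fun N hN hn =>
    ⟨key3 N, key4 N hN hn⟩, fun h X hX => ?_, fun h => ?_⟩
  · exact Pool.Agent.H50.FT.open_image ρ hρ h𝔤 (fun m φ hφ X hX => (h.2 m φ).1 hφ X hX) s hs hfin w
      p hinj hp hgood hab' hX
  · refine key4 (4 + ∑ i, n i) (Nat.le_add_right _ _) (fun i => ?_) fun m _ φ hφ X hX =>
      Pool.Agent.H50.FT.kills_of_open h𝔤 h m φ hφ X hX
    exact (Finset.single_le_sum (f := n) (fun _ _ => Nat.zero_le _) (Finset.mem_univ i)).trans
      (Nat.le_add_left _ _)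

end core

theorem result {Γ : Type} [Group Γ] [TopologicalSpace Γ] [IsTopologicalGroup Γ] [CompactSpace Γ]
    {ι : Type} [Fintype ι] [DecidableEq ι] {n : ι → ℕ}
    -- the polarized `ℓ`-adic realizations, and the Lie algebras of the motivic groups
    (ρ : ∀ (ℓ : ℕ) [Fact ℓ.Prime], Reps Γ n ℓ) (𝔤 : ∀ (ℓ : ℕ) [Fact ℓ.Prime], EndSpace n ℓ) (r : ℕ)
    (hsys : ∀ (ℓ : ℕ) [Fact ℓ.Prime],
      Conts (ρ ℓ) ∧ Polarized (ρ ℓ) ∧ Motivic (ρ ℓ) (𝔤 ℓ) ∧ RankLE (𝔤 ℓ) r)
    -- the rational point; good reduction of the fibre outside of a finite set of places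
    (s : Gal(AlgebraicClosure ℚ/ℚ) →* Γ) (hs : Continuous s) (w : ι → ℤ) (c : ℕ)
    (S : Set (HeightOneSpectrum (𝓞 ℚ))) (P : HeightOneSpectrum (𝓞 ℚ) → ι → ℚ[X])
    (hgood : GoodOutside s ρ w c S P)
    -- one prime number, at which the Tate tensors in a bounded number of variables are known
    (ℓ₀ : ℕ) [Fact ℓ₀.Prime] (hge : RankGE (𝔤 ℓ₀) r)
    (h0 : BoundedTate (restrictTo (ρ ℓ₀) s) (𝔤 ℓ₀) w) :
    OpenImage (restrictTo (ρ ℓ₀) s) (𝔤 ℓ₀) ∧
    ∀ (ℓ : ℕ) [Fact ℓ.Prime], Semisimple (ρ ℓ) ∧
      (AllTate (ρ ℓ) (𝔤 ℓ) ↔ EndomorphismsFixed (ρ ℓ) (𝔤 ℓ)) ∧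
      (FiniteOrderFrom s ℓ → AbelianPart (ρ ℓ) (𝔤 ℓ) w →
        (AllTate (ρ ℓ) (𝔤 ℓ) ↔ OpenImage (ρ ℓ) (𝔤 ℓ))) := by
  obtain ⟨hS, hint, hP⟩ := hgood
  have hρ : ∀ (ℓ : ℕ) [Fact ℓ.Prime], Conts (ρ ℓ) := fun ℓ _ => (hsys ℓ).1
  have hpol : ∀ (ℓ : ℕ) [Fact ℓ.Prime], Polarized (ρ ℓ) := fun ℓ _ => (hsys ℓ).2.1
  have h𝔤 : ∀ (ℓ : ℕ) [Fact ℓ.Prime], Motivic (ρ ℓ) (𝔤 ℓ) := fun ℓ _ => (hsys ℓ).2.2.1
  have hrank : ∀ (ℓ : ℕ) [Fact ℓ.Prime], RankLE (𝔤 ℓ) r := fun ℓ _ => (hsys ℓ).2.2.2
  have hcpt : CompactSpace Gal(AlgebraicClosure ℚ/ℚ) :=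
    (inferInstance : CompactSpace (Pool.Agent.W569.FM.GF ℚ))
  -- the image is open at `ℓ₀`
  have hopen : OpenImage (restrictTo (ρ ℓ₀) s) (𝔤 ℓ₀) := by
    rcases h0 with h0 | ⟨hab, h0⟩
    · exact h0
    · have h1 := equivalence (MonoidHom.id _) continuous_id (restrictTo (ρ ℓ₀) s)
        (fun i => ((hρ ℓ₀) i).comp hs) (fun i => by
          obtain ⟨B, hB1, hB2, hB3⟩ := hpol ℓ₀ i
          exact ⟨B, hB1, hB2, fun γ => hB3 (s γ)⟩) (𝔤 ℓ₀)
        (Pool.Agent.H50.FT.motivic_restrict s (h𝔤 ℓ₀)) w S hS P (hP ℓ₀)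
        (fun ψ _ h => h) hab
      rcases h0 with h0 | ⟨N, hN, hn, hT⟩
      · exact h1.2.2.1 (h1.1.2 h0)
      · exact h1.2.2.1 ((h1.2.1 N hN hn).2 hT)
  refine ⟨hopen, fun ℓ _ => ?_⟩
  -- a Galois element with `r` independent eigenvalues
  have hind : ∃ σ, IndependentEigenvalues (ρ ℓ₀) (s σ) r :=
    Pool.Agent.H50.FT.exists_indep_of_tangent (restrictTo (ρ ℓ₀) s) (fun i => ((hρ ℓ₀) i).comp hs) w c
      (S ∪ {v | Above v ℓ₀}) (hS.union (finite_above ℓ₀ Fact.out)) P
      (fun v hv i => ⟨hP ℓ₀ v (fun h => hv (Or.inl h)) (fun h => hv (Or.inr h)) i,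
        hint v (fun h => hv (Or.inl h)) i⟩) r
      (Pool.Agent.H50.FT.tangentIndep_of_rank
        (Pool.Agent.H50.FT.motivic_restrict s (h𝔤 ℓ₀)) hge hopen)
  have hP₀ : ∀ v ∉ S, ¬ Above v ℓ₀ → ∀ i, GoodReduction (restrictTo (ρ ℓ₀) s) i (w i) v (P v i) ∧
      IntegralRoots c v (P v i) := fun v hv hv' i => ⟨hP ℓ₀ v hv hv' i, hint v hv i⟩
  have h1 := Pool.Agent.R931.IR.main s hs w c S hS P ℓ₀ (ρ ℓ₀) (hρ ℓ₀) hP₀ r hind ℓ (ρ ℓ) (hρ ℓ)
    (hP ℓ) (𝔤 ℓ) (h𝔤 ℓ) (hrank ℓ)
  have h2 := Pool.Agent.R931.BD.main_endo s hs w c S hS P ℓ₀ (ρ ℓ₀) (hρ ℓ₀) hP₀ r hind ℓ (ρ ℓ) (hρ ℓ)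
    (hP ℓ) (𝔤 ℓ) (h𝔤 ℓ) (hrank ℓ)
  exact ⟨h1.1, ⟨fun h => h2.2 h.2, fun h => ⟨h1.1, h2.1 h⟩⟩, fun hfin hab =>
    (equivalence s hs (ρ ℓ) (hρ ℓ) (hpol ℓ) (𝔤 ℓ) (h𝔤 ℓ) w S hS P (hP ℓ) hfin hab).2.2⟩

end Pool.Agent.Results.MP_bbcdf5_ag.OneToEveryPrime
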